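import Mathlib

/-! The Cartier identity for polynomials: extraction of the exponents congruent to -1 modulo q.
For every commutative ring k of characteristic p and g : σ → k[x_σ],
ext p (∏ g_i^(p-1) * det (∂_j g_i)) = map Frob (det (∂_j g_i)). -/

open MvPolynomial

namespace Fuj

variable {σ : Type*} [Fintype σ] {k : Type*} [CommRing k]

/-- The exponent m β + (m - 1). -/
noncomputable def exE (m : ℕ) (β : σ →₀ ℕ) : σ →₀ ℕ :=
  Finsupp.equivFunOnFinite.symm (fun i => m * β i + (m - 1))

@[simp] lemma exE_apply (m : ℕ) (β : σ →₀ ℕ) (i : σ) : exE m β i = m * β i + (m - 1) := rfl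

/-- The exponent (α + 1) / m - 1. -/
noncomputable def dvE (m : ℕ) (α : σ →₀ ℕ) : σ →₀ ℕ :=
  Finsupp.equivFunOnFinite.symm (fun i => (α i + 1) / m - 1)

@[simp] lemma dvE_apply (m : ℕ) (α : σ →₀ ℕ) (i : σ) : dvE m α i = (α i + 1) / m - 1 := rfl

open Classical in
/-- Extraction of the exponents congruent to -1 modulo m. -/
noncomputable def ext (m : ℕ) : MvPolynomial σ k →ₗ[k] MvPolynomial σ k :=
  (basisMonomials σ k).constr k
    (fun α => if ∀ i, m ∣ α i + 1 then monomial (dvE m α) 1 else 0)

open Classical in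
lemma ext_monomial (m : ℕ) (α : σ →₀ ℕ) (c : k) :
    ext m (monomial α c) = if ∀ i, m ∣ α i + 1 then monomial (dvE m α) c else 0 := by
  have h : monomial α c = c • (basisMonomials σ k) α := by
    rw [coe_basisMonomials, smul_monomial, smul_eq_mul, mul_one]
  rw [h, map_smul, ext, Module.Basis.constr_basis]
  split_ifs
  · rw [smul_monomial, smul_eq_mul, mul_one]
  · rw [smul_zero]

lemma dvE_exE (m : ℕ) (hm : 0 < m) (β : σ →₀ ℕ) : dvE m (exE m β) = β := by
  ext i
  simp only [dvE_apply, exE_apply]
  have h : m * β i + (m - 1) + 1 = m * (β i + 1) := by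
    rw [mul_add, mul_one]; omega
  rw [h, Nat.mul_div_cancel_left _ hm]
  omega

lemma exE_dvE (m : ℕ) (hm : 0 < m) (α : σ →₀ ℕ) (h : ∀ i, m ∣ α i + 1) :
    exE m (dvE m α) = α := by
  ext i
  simp only [dvE_apply, exE_apply]
  obtain ⟨c, hc⟩ := h i
  rw [hc, Nat.mul_div_cancel_left _ hm]
  have hc0 : 0 < c := by
    rcases Nat.eq_zero_or_pos c with h0 | h0
    · rw [h0] at hc; omega
    · exact h0
  obtain ⟨d, rfl⟩ : ∃ d, c = d + 1 := ⟨c - 1, by omega⟩
  rw [mul_add, mul_one] at hc
  rw [Nat.add_sub_cancel]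
  omega

lemma dvd_exE (m : ℕ) (hm : 0 < m) (β : σ →₀ ℕ) (i : σ) : m ∣ exE m β i + 1 := by
  refine ⟨β i + 1, ?_⟩
  rw [exE_apply, mul_add, mul_one]
  omega

lemma coeff_ext (m : ℕ) (hm : 0 < m) (β : σ →₀ ℕ) (f : MvPolynomial σ k) :
    coeff β (ext m f) = coeff (exE m β) f := by
  classical
  induction f using MvPolynomial.induction_on' with
  | monomial α c =>
    rw [ext_monomial, coeff_monomial]
    split_ifs with h1 h2 h2
    · rw [coeff_monomial, if_pos]
      rw [h2, dvE_exE m hm]
    · rw [coeff_monomial, if_neg]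
      rintro rfl
      exact h2 (exE_dvE m hm α h1).symm
    · exfalso
      apply h1
      intro i
      rw [h2]
      exact dvd_exE m hm β i
    · rw [coeff_zero]
  | add f g hf hg => rw [map_add, coeff_add, coeff_add, hf, hg]

/-- Composition of two extractions. -/
lemma ext_ext (m n : ℕ) (hm : 0 < m) (hn : 0 < n) (f : MvPolynomial σ k) :
    ext m (ext n f) = ext (m * n) f := by
  apply MvPolynomial.ext
  intro β
  rw [coeff_ext m hm, coeff_ext n hn, coeff_ext (m * n) (Nat.mul_pos hm hn)]
  congr 1
  ext i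
  simp only [exE_apply]
  obtain ⟨a, rfl⟩ : ∃ a, m = a + 1 := ⟨m - 1, by omega⟩
  obtain ⟨b, rfl⟩ : ∃ b, n = b + 1 := ⟨n - 1, by omega⟩
  have h : (a + 1) * (b + 1) - 1 = (b + 1) * a + b := by
    have : (a + 1) * (b + 1) = (b + 1) * a + b + 1 := by ring
    omega
  rw [h, Nat.add_sub_cancel, Nat.add_sub_cancel]
  ring

/-- Extraction is linear over p-th powers, up to Frobenius on the coefficients. -/
lemma ext_pow_mul (p : ℕ) [hp : Fact p.Prime] [CharP k p] (a r : MvPolynomial σ k) :
    ext p (a ^ p * r) = map (frobenius k p) a * ext p r := by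
  have hp0 : 0 < p := hp.out.pos
  induction a using MvPolynomial.induction_on' with
  | monomial α c =>
    apply MvPolynomial.ext
    intro β
    rw [coeff_ext p hp0, map_monomial, monomial_pow, coeff_monomial_mul', coeff_monomial_mul']
    have hle : p • α ≤ exE p β ↔ α ≤ β := by
      constructor
      · intro h i
        have h1 := h i
        rw [exE_apply, Finsupp.smul_apply, smul_eq_mul] at h1
        by_contra h2
        have h3 : β i + 1 ≤ α i := by omega
        have h4 := Nat.mul_le_mul_left p h3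
        rw [mul_add, mul_one] at h4
        omega
      · intro h i
        rw [exE_apply, Finsupp.smul_apply, smul_eq_mul]
        exact le_trans (Nat.mul_le_mul_left p (h i)) (Nat.le_add_right _ _)
    by_cases h : α ≤ β
    · rw [if_pos h, if_pos (hle.2 h), coeff_ext p hp0, frobenius_def]
      congr 2
      ext i
      rw [Finsupp.tsub_apply, exE_apply, exE_apply, Finsupp.smul_apply, smul_eq_mul,
        Finsupp.tsub_apply, Nat.mul_sub]
      have h1 := Nat.mul_le_mul_left p (h i)
      omega
    · rw [if_neg h, if_neg (fun h' => h (hle.1 h'))]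
  | add f g hf hg =>
    rw [add_pow_char, add_mul, map_add, hf, hg, map_add, add_mul]

/-- Derivatives are killed. -/
lemma ext_pderiv [DecidableEq σ] (p : ℕ) [hp : Fact p.Prime] [CharP k p] (j : σ)
    (h : MvPolynomial σ k) : ext p (pderiv j h) = 0 := by
  have hp0 : 0 < p := hp.out.pos
  induction h using MvPolynomial.induction_on' with
  | monomial α c =>
    apply MvPolynomial.ext
    intro β
    rw [coeff_ext p hp0, pderiv_monomial, coeff_zero, coeff_monomial]
    split_ifs with h1
    · have h2 := DFunLike.congr_fun h1 j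
      rw [exE_apply, Finsupp.tsub_apply, Finsupp.single_eq_same] at h2
      rcases Nat.eq_zero_or_pos (α j) with h3 | h3
      · rw [h3, Nat.cast_zero, mul_zero]
      · have h4 : α j = p * (β j + 1) := by
          rw [mul_add, mul_one]; omega
        rw [h4, Nat.cast_mul, CharP.cast_eq_zero, zero_mul, mul_zero]
    · rfl
  | add f g hf hg => rw [map_add, map_add, hf, hg, add_zero]

end Fuj
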