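import Pool.Agent.Lib.MP_0b721b_ag.Fuj.Piola

open MvPolynomial

namespace Fuj

variable {σ : Type*} [Fintype σ] [DecidableEq σ] {k : Type*} [CommRing k]

/-- f^(p-1) df is additive up to an exact term. -/
lemma pow_deriv_add {R : Type*} [CommRing R] [Algebra k R] (D : Derivation k R R) (p : ℕ)
    [hp : Fact p.Prime] (f g : R) :
    ∃ E : R, (f + g) ^ (p - 1) * D (f + g) = f ^ (p - 1) * D f + g ^ (p - 1) * D g + D E := by
  obtain ⟨m, rfl⟩ : ∃ m, p = m + 1 := ⟨p - 1, by have := hp.out.pos; omega⟩
  rw [Nat.add_sub_cancel]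
  refine ⟨∑ a ∈ Finset.range m, (((m + 1).choose (a + 1) / (m + 1) : ℕ) : R) *
    (f ^ (a + 1) * g ^ (m - a)), ?_⟩
  have hdiv : ∀ a ∈ Finset.range m, (m + 1) * ((m + 1).choose (a + 1) / (m + 1))
      = (m + 1).choose (a + 1) := by
    intro a ha
    apply Nat.mul_div_cancel'
    apply hp.out.dvd_choose_self (Nat.succ_ne_zero a)
    have := Finset.mem_range.1 ha
    omega
  have h1 : ∀ a ∈ Finset.range m, ((m + 1).choose (a + 1) / (m + 1)) * (a + 1)
      = m.choose a := by
    intro a ha
    have h := hdiv a ha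
    have h2 := Nat.add_one_mul_choose_eq m a
    apply Nat.eq_of_mul_eq_mul_left (Nat.succ_pos m)
    rw [← mul_assoc, Nat.succ_eq_add_one, h, ← h2]
  have h2 : ∀ a ∈ Finset.range m, ((m + 1).choose (a + 1) / (m + 1)) * (m - a)
      = m.choose (a + 1) := by
    intro a ha
    have h := hdiv a ha
    have h3 := Nat.choose_succ_right_eq (m + 1) (a + 1)
    have h4 := Nat.add_one_mul_choose_eq m (a + 1)
    apply Nat.eq_of_mul_eq_mul_left (Nat.succ_pos m)
    rw [← mul_assoc, Nat.succ_eq_add_one, h, h4, h3]
    congr 1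
    omega
  have hterm : ∀ a ∈ Finset.range m,
      D ((((m + 1).choose (a + 1) / (m + 1) : ℕ) : R) * (f ^ (a + 1) * g ^ (m - a)))
      = ((m.choose a : ℕ) : R) * (f ^ a * g ^ (m - a)) * D f
        + ((m.choose (a + 1) : ℕ) : R) * (f ^ (a + 1) * g ^ (m - (a + 1))) * D g := by
    intro a ha
    have hm : m - a - 1 = m - (a + 1) := by omega
    rw [← h1 a ha, ← h2 a ha, D.leibniz, D.map_natCast, smul_zero, add_zero, D.leibniz,
      D.leibniz_pow, D.leibniz_pow, hm, Nat.add_sub_cancel]
    simp only [smul_eq_mul, nsmul_eq_mul, Nat.cast_mul]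
    ring
  rw [map_sum, Finset.sum_congr rfl hterm, Finset.sum_add_distrib, ← Finset.sum_mul,
    ← Finset.sum_mul]
  have hA : (f + g) ^ m = ∑ a ∈ Finset.range m, ((m.choose a : ℕ) : R) * (f ^ a * g ^ (m - a))
      + f ^ m := by
    rw [add_pow, Finset.sum_range_succ, Nat.choose_self, Nat.cast_one, mul_one, Nat.sub_self,
      pow_zero, mul_one]
    congr 1
    apply Finset.sum_congr rfl
    intros
    ring
  have hB : (f + g) ^ m = ∑ a ∈ Finset.range m,
      ((m.choose (a + 1) : ℕ) : R) * (f ^ (a + 1) * g ^ (m - (a + 1))) + g ^ m := by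
    rw [add_pow, Finset.sum_range_succ', Nat.choose_zero_right, Nat.cast_one, mul_one,
      Nat.sub_zero, pow_zero, one_mul]
    congr 1
    apply Finset.sum_congr rfl
    intros
    ring
  rw [map_add, mul_add]
  nth_rw 1 [hA]
  nth_rw 1 [hB]
  ring

/-- The derivation f -> det Jac (update g i0 f). -/
noncomputable def DD (g : σ → MvPolynomial σ k) (i0 : σ) :
    Derivation k (MvPolynomial σ k) (MvPolynomial σ k) :=
  ∑ j, ((Jac g).updateRow i0 (Pi.single j 1)).det • pderiv j

lemma DD_apply (g : σ → MvPolynomial σ k) (i0 : σ) (f : MvPolynomial σ k) :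
    DD g i0 f = (Jac (Function.update g i0 f)).det := by
  have h : Jac (Function.update g i0 f) = (Jac g).updateRow i0 (fun j => pderiv j f) := by
    ext1 i j
    rw [Jac_apply]
    rcases eq_or_ne i i0 with rfl | hi
    · rw [Function.update_self, Matrix.updateRow_self]
    · rw [Function.update_of_ne hi, Matrix.updateRow_ne hi, Jac_apply]
  rw [h, det_updateRow_eq_sum, DD]
  have h2 : ∀ (s : Finset σ), (∑ j ∈ s, ((Jac g).updateRow i0 (Pi.single j 1)).det •
      (pderiv j : Derivation k (MvPolynomial σ k) (MvPolynomial σ k))) f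
      = ∑ j ∈ s, pderiv j f * ((Jac g).updateRow i0 (Pi.single j 1)).det := by
    intro s
    induction s using Finset.induction_on with
    | empty => simp
    | insert a s ha ih =>
      rw [Finset.sum_insert ha, Finset.sum_insert ha, Derivation.add_apply, ih,
        Derivation.smul_apply, smul_eq_mul, mul_comm]
  exact h2 _

lemma DD_self (g : σ → MvPolynomial σ k) (i0 i : σ) (hi : i ≠ i0) : DD g i0 (g i) = 0 := by
  rw [DD_apply]
  apply Matrix.det_zero_of_row_eq hi
  funext j
  rw [Jac_apply, Jac_apply, Function.update_self, Function.update_of_ne hi]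

lemma DD_prod (g : σ → MvPolynomial σ k) (i0 : σ) (m : ℕ) :
    DD g i0 (∏ i ∈ Finset.univ.erase i0, g i ^ m) = 0 := by
  rw [deriv_prod]
  apply Finset.sum_eq_zero
  intro i hi
  rw [Derivation.leibniz_pow, DD_self g i0 i (Finset.ne_of_mem_erase hi), smul_zero, smul_zero,
    mul_zero]

/-- Exact forms are killed. -/
lemma ext_DD (p : ℕ) [hp : Fact p.Prime] [CharP k p] (g : σ → MvPolynomial σ k) (i0 : σ)
    (m : ℕ) (E : MvPolynomial σ k) :
    ext p ((∏ i ∈ Finset.univ.erase i0, g i ^ m) * DD g i0 E) = 0 := by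
  set G := ∏ i ∈ Finset.univ.erase i0, g i ^ m with hG
  have h : G * DD g i0 E
      = ∑ j, pderiv j (G * E * ((Jac g).updateRow i0 (Pi.single j 1)).det) := by
    have h1 : ∀ j, pderiv j (G * E * ((Jac g).updateRow i0 (Pi.single j 1)).det)
        = pderiv j (G * E) * ((Jac g).updateRow i0 (Pi.single j 1)).det
          + G * E * pderiv j (((Jac g).updateRow i0 (Pi.single j 1)).det) :=
      fun j => pderiv_mul
    rw [Finset.sum_congr rfl (fun j _ => h1 j), Finset.sum_add_distrib, ← Finset.mul_sum, piola,
      mul_zero, add_zero]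
    have h2 : ∑ j, pderiv j (G * E) * ((Jac g).updateRow i0 (Pi.single j 1)).det
        = DD g i0 (G * E) := by
      rw [DD_apply]
      have h : Jac (Function.update g i0 (G * E))
          = (Jac g).updateRow i0 (fun j => pderiv j (G * E)) := by
        ext1 i j
        rw [Jac_apply]
        rcases eq_or_ne i i0 with rfl | hi
        · rw [Function.update_self, Matrix.updateRow_self]
        · rw [Function.update_of_ne hi, Matrix.updateRow_ne hi, Jac_apply]
      rw [h, det_updateRow_eq_sum]
    rw [h2, Derivation.leibniz, hG, DD_prod, smul_zero, add_zero, smul_eq_mul]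
  rw [h, map_sum]
  apply Finset.sum_eq_zero
  intro j _
  exact ext_pderiv p j _

/-- The left side of the Cartier identity. -/
noncomputable def LC (p : ℕ) (g : σ → MvPolynomial σ k) : MvPolynomial σ k :=
  ext p ((∏ i, g i ^ (p - 1)) * (Jac g).det)

lemma LC_update (p : ℕ) [hp : Fact p.Prime] [CharP k p] (g : σ → MvPolynomial σ k) (i0 : σ)
    (f : MvPolynomial σ k) : LC p (Function.update g i0 f)
      = ext p ((∏ i ∈ Finset.univ.erase i0, g i ^ (p - 1)) * (f ^ (p - 1) * DD g i0 f)) := by
  rw [LC, ← DD_apply, ← Finset.prod_erase_mul _ _ (Finset.mem_univ i0), Function.update_self,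
    mul_assoc]
  congr 2
  apply Finset.prod_congr rfl
  intro i hi
  rw [Function.update_of_ne (Finset.ne_of_mem_erase hi)]

lemma LC_add (p : ℕ) [hp : Fact p.Prime] [CharP k p] (g : σ → MvPolynomial σ k) (i0 : σ)
    (f h : MvPolynomial σ k) : LC p (Function.update g i0 (f + h))
      = LC p (Function.update g i0 f) + LC p (Function.update g i0 h) := by
  obtain ⟨E, hE⟩ := pow_deriv_add (DD g i0) p f h
  rw [LC_update, LC_update, LC_update, hE, mul_add, mul_add, map_add, map_add, ext_DD, add_zero]

/-- The exponent (1,...,1). -/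
noncomputable def onE : σ →₀ ℕ := Finsupp.equivFunOnFinite.symm (fun _ => 1)

@[simp] lemma onE_apply (i : σ) : (onE : σ →₀ ℕ) i = 1 := rfl

lemma exE_add_one (p : ℕ) (hp : 0 < p) (β : σ →₀ ℕ) : onE + exE p β = p • (onE + β) := by
  ext i
  simp only [Finsupp.add_apply, onE_apply, exE_apply, Finsupp.smul_apply, smul_eq_mul]
  rw [mul_add, mul_one]
  omega

lemma prod_X_eq : (∏ j, (X j : MvPolynomial σ k)) = monomial onE 1 := by
  rw [monomial_eq, C_1, one_mul, Finsupp.prod_fintype]
  · apply Finset.prod_congr rfl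
    intro j _
    rw [onE_apply, pow_one]
  · intro i
    rw [pow_zero]

lemma prod_monomial (s : Finset σ) (γ : σ → σ →₀ ℕ) (c : σ → k) :
    ∏ i ∈ s, monomial (γ i) (c i) = monomial (∑ i ∈ s, γ i) (∏ i ∈ s, c i) := by
  induction s using Finset.induction_on with
  | empty => simp
  | insert a s ha ih =>
    rw [Finset.prod_insert ha, ih, monomial_mul, Finset.sum_insert ha, Finset.prod_insert ha]

/-- The integer determinant of the exponents. -/
def dtE (γ : σ → σ →₀ ℕ) : ℤ := Matrix.det (Matrix.of fun i j => ((γ i j : ℕ) : ℤ))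

lemma monomial_one_mul_det (γ : σ → σ →₀ ℕ) (c : σ → k) :
    monomial onE 1 * (Jac (fun i => monomial (γ i) (c i))).det
      = monomial (∑ i, γ i) ((∏ i, c i) * (dtE γ : k)) := by
  have h1 : (monomial onE 1 : MvPolynomial σ k) * (Jac (fun i => monomial (γ i) (c i))).det
      = Matrix.det (Matrix.of fun i j => X j * Jac (fun i => monomial (γ i) (c i)) i j) := by
    rw [Matrix.det_mul_row, prod_X_eq]
  have h2 : (Matrix.of fun i j => (X j : MvPolynomial σ k) *
      Jac (fun i => monomial (γ i) (c i)) i j)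
      = Matrix.of fun i j => (monomial (γ i) (c i) : MvPolynomial σ k) *
        ((Matrix.of fun i j => ((γ i j : ℕ) : ℤ)).map (Int.castRingHom (MvPolynomial σ k))) i j := by
    ext1 i j
    rw [Matrix.of_apply, Matrix.of_apply, Jac_apply, X_mul_pderiv_monomial, Matrix.map_apply,
      Matrix.of_apply, nsmul_eq_mul]
    simp [mul_comm]
  rw [h1, h2, Matrix.det_mul_column, prod_monomial]
  have h3 := RingHom.map_det (Int.castRingHom (MvPolynomial σ k))
    (Matrix.of fun i j => ((γ i j : ℕ) : ℤ))
  rw [RingHom.mapMatrix_apply] at h3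
  rw [← h3]
  have h4 : (Int.castRingHom (MvPolynomial σ k)) (Matrix.of fun i j => ((γ i j : ℕ) : ℤ)).det
      = C ((dtE γ : ℤ) : k) := by
    rw [dtE]
    simp
  rw [h4, mul_comm, C_mul_monomial, mul_comm]

lemma LC_monomial (p : ℕ) [hp : Fact p.Prime] [CharP k p] (γ : σ → σ →₀ ℕ) (c : σ → k) :
    LC p (fun i => monomial (γ i) (c i))
      = map (frobenius k p) (Jac (fun i => monomial (γ i) (c i))).det := by
  have hp0 : 0 < p := hp.out.pos
  apply MvPolynomial.ext
  intro β
  have hJ : ∀ δ : σ →₀ ℕ, coeff δ (Jac (fun i => monomial (γ i) (c i))).det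
      = coeff (onE + δ) (monomial (∑ i, γ i) ((∏ i, c i) * (dtE γ : k))) := by
    intro δ
    rw [← monomial_one_mul_det, coeff_monomial_mul, one_mul]
  rw [LC, coeff_ext p hp0, coeff_map, hJ, frobenius_def]
  have h1 : coeff (exE p β) ((∏ i, (monomial (γ i) (c i) : MvPolynomial σ k) ^ (p - 1)) *
      (Jac (fun i => monomial (γ i) (c i))).det)
      = coeff (onE + exE p β) ((∏ i, (monomial (γ i) (c i) : MvPolynomial σ k) ^ (p - 1)) *
        monomial (∑ i, γ i) ((∏ i, c i) * (dtE γ : k))) := by
    rw [← monomial_one_mul_det, mul_left_comm, coeff_monomial_mul, one_mul]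
  rw [h1, exE_add_one p hp0, Finset.prod_pow, prod_monomial, monomial_pow, monomial_mul,
    coeff_monomial, coeff_monomial]
  have h2 : (p - 1) • ∑ i, γ i + ∑ i, γ i = p • ∑ i, γ i := by
    rw [← succ_nsmul, Nat.sub_add_cancel hp0]
  have h3 : (p • ∑ i, γ i = p • (onE + β)) ↔ (∑ i, γ i = onE + β) := by
    constructor
    · intro h
      ext i
      have := DFunLike.congr_fun h i
      rw [Finsupp.smul_apply, Finsupp.smul_apply, smul_eq_mul, smul_eq_mul] at this
      exact Nat.eq_of_mul_eq_mul_left hp0 this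
    · intro h
      rw [h]
  have h4 : ((dtE γ : ℤ) : k) ^ p = ((dtE γ : ℤ) : k) := by
    have := map_intCast (frobenius k p) (dtE γ)
    rwa [frobenius_def] at this
  rw [h2]
  simp only [h3]
  split_ifs
  · rw [mul_pow, h4, ← mul_assoc, ← pow_succ, Nat.sub_add_cancel hp0]
  · rw [zero_pow hp0.ne']

/-- The Cartier identity. -/
theorem cartier (p : ℕ) [hp : Fact p.Prime] [CharP k p] (g : σ → MvPolynomial σ k) :
    ext p ((∏ i, g i ^ (p - 1)) * (Jac g).det) = map (frobenius k p) (Jac g).det := by
  have key : ∀ (s : Finset σ) (g : σ → MvPolynomial σ k),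
      (∀ i, i ∉ s → ∃ γ c, g i = monomial γ c) →
      LC p g = map (frobenius k p) (Jac g).det := by
    intro s
    induction s using Finset.induction_on with
    | empty =>
      intro g hg
      choose γ c hγ using fun i => hg i (Finset.notMem_empty i)
      have h : g = fun i => monomial (γ i) (c i) := funext hγ
      rw [h, LC_monomial]
    | insert a s ha ih =>
      intro g hg
      have h1 : ∀ f : MvPolynomial σ k, LC p (Function.update g a f)
          = map (frobenius k p) (Jac (Function.update g a f)).det := by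
        intro f
        induction f using MvPolynomial.induction_on' with
        | monomial α c =>
          apply ih
          intro i hi
          rcases eq_or_ne i a with rfl | hia
          · exact ⟨α, c, Function.update_self _ _ _⟩
          · rw [Function.update_of_ne hia]
            apply hg
            rw [Finset.mem_insert]
            rintro (h | h)
            · exact hia h
            · exact hi h
        | add f h hf hh =>
          rw [LC_add, hf, hh, ← DD_apply, ← DD_apply, ← DD_apply, map_add, map_add]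
      have h2 := h1 (g a)
      rwa [Function.update_eq_self] at h2
  exact key Finset.univ g (fun i hi => absurd (Finset.mem_univ i) hi)

end Fuj
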