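import Pool.Agent.Lib.MP_0b721b_ag.Fuj.Cartier

open MvPolynomial

namespace Fuj

variable {σ : Type*} [Fintype σ] [DecidableEq σ] {k : Type*} [CommRing k]

lemma deriv_prod {R : Type*} [CommRing R] [Algebra k R] (D : Derivation k R R)
    {ι : Type*} [DecidableEq ι] (s : Finset ι) (f : ι → R) :
    D (∏ i ∈ s, f i) = ∑ i ∈ s, (∏ j ∈ s.erase i, f j) * D (f i) := by
  induction s using Finset.induction_on with
  | empty => simp
  | insert a s ha ih =>
    rw [Finset.prod_insert ha, D.leibniz, ih, Finset.sum_insert ha, Finset.erase_insert ha,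
      smul_eq_mul, smul_eq_mul, add_comm, Finset.mul_sum]
    congr 1
    apply Finset.sum_congr rfl
    intro i hi
    have hia : a ≠ i := fun h => ha (h ▸ hi)
    rw [Finset.erase_insert_of_ne hia, Finset.prod_insert, mul_assoc]
    intro h
    exact ha (Finset.mem_of_mem_erase h)

lemma det_transpose_apply {R : Type*} [CommRing R] (M : Matrix σ σ R) :
    M.det = ∑ s : Equiv.Perm σ, ((Equiv.Perm.sign s : ℤ) : R) * ∏ i, M i (s i) := by
  rw [← Matrix.det_transpose, Matrix.det_apply']
  rfl

lemma deriv_det {R : Type*} [CommRing R] [Algebra k R] (D : Derivation k R R)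
    (M : Matrix σ σ R) :
    D M.det = ∑ i, (M.updateRow i (fun j => D (M i j))).det := by
  rw [det_transpose_apply, map_sum]
  have h1 : ∀ s : Equiv.Perm σ, D (((Equiv.Perm.sign s : ℤ) : R) * ∏ i, M i (s i))
      = ∑ i, ((Equiv.Perm.sign s : ℤ) : R) *
        ∏ j, (M.updateRow i (fun j => D (M i j))) j (s j) := by
    intro s
    rw [D.leibniz, D.map_intCast, smul_zero, add_zero, deriv_prod, smul_eq_mul, Finset.mul_sum]
    apply Finset.sum_congr rfl
    intro i _
    congr 1
    rw [← Finset.prod_erase_mul _ _ (Finset.mem_univ i), Matrix.updateRow_self]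
    congr 1
    apply Finset.prod_congr rfl
    intro j hj
    rw [Matrix.updateRow_ne (Finset.ne_of_mem_erase hj)]
  rw [Finset.sum_congr rfl (fun s _ => h1 s), Finset.sum_comm]
  apply Finset.sum_congr rfl
  intro i _
  rw [det_transpose_apply]

/-- The Jacobian matrix. -/
noncomputable def Jac (g : σ → MvPolynomial σ k) : Matrix σ σ (MvPolynomial σ k) :=
  Matrix.of fun i j => pderiv j (g i)

lemma Jac_apply (g : σ → MvPolynomial σ k) (i j : σ) : Jac g i j = pderiv j (g i) := rfl

lemma pderiv_pderiv_comm (i j : σ) (f : MvPolynomial σ k) :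
    pderiv i (pderiv j f) = pderiv j (pderiv i f) := by
  induction f using MvPolynomial.induction_on' with
  | monomial α c =>
    rw [pderiv_monomial, pderiv_monomial, pderiv_monomial, pderiv_monomial]
    rcases eq_or_ne i j with rfl | h
    · rfl
    · rw [Finsupp.tsub_apply, Finsupp.tsub_apply, Finsupp.single_eq_of_ne h,
        Finsupp.single_eq_of_ne h.symm, tsub_zero, tsub_zero, tsub_right_comm, mul_right_comm]
  | add f g hf hg => simp only [map_add, hf, hg]

/-- The determinant with row i replaced, as a linear functional. -/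
lemma det_updateRow_eq_sum {R : Type*} [CommRing R] (M : Matrix σ σ R) (i : σ) (v : σ → R) :
    (M.updateRow i v).det = ∑ j, v j * (M.updateRow i (Pi.single j 1)).det := by
  have h : v = ∑ j, v j • (Pi.single j 1 : σ → R) := by
    ext l
    simp [Finset.sum_apply, Pi.single_apply]
  have h2 : ∀ v : σ → R, (M.updateRow i v).det
      = (Matrix.detRowAlternating (R := R)).toMultilinearMap.toLinearMap M i v := fun v => rfl
  rw [h2, h, map_sum]
  apply Finset.sum_congr rfl
  intro j _
  rw [map_smul, ← h2, smul_eq_mul]
  congr 1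
  rw [← h]

lemma det_update_same {R : Type*} [CommRing R] (M : Matrix σ σ R) {a b : σ} (hab : a ≠ b)
    (v : σ → R) : ((M.updateRow a v).updateRow b v).det = 0 := by
  apply Matrix.det_zero_of_row_eq hab
  rw [Matrix.updateRow_ne hab, Matrix.updateRow_self]
  funext l
  rw [Matrix.updateRow_self]

lemma det_update_swap {R : Type*} [CommRing R] (M : Matrix σ σ R) {a b : σ} (hab : a ≠ b)
    (v w : σ → R) : ((M.updateRow a v).updateRow b w).det
      + ((M.updateRow a w).updateRow b v).det = 0 := by
  have h2 : ∀ y : σ → R, ((M.updateRow a (v + w)).updateRow b y).det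
      = ((M.updateRow a v).updateRow b y).det + ((M.updateRow a w).updateRow b y).det := by
    intro y
    rw [Matrix.updateRow_comm _ hab, Matrix.det_updateRow_add, Matrix.updateRow_comm M hab v y,
      Matrix.updateRow_comm M hab w y]
  have h := det_update_same M hab (v + w)
  rw [Matrix.det_updateRow_add, h2, h2, det_update_same M hab, det_update_same M hab, zero_add,
    add_zero, add_comm] at h
  exact h

/-- Piola identity. -/
lemma piola (g : σ → MvPolynomial σ k) (i0 : σ) :
    ∑ j, pderiv j (((Jac g).updateRow i0 (Pi.single j 1)).det) = 0 := by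
  have h1 : ∀ j, pderiv j (((Jac g).updateRow i0 (Pi.single j 1)).det)
      = ∑ i ∈ Finset.univ.erase i0, ∑ l, pderiv j (pderiv l (g i)) *
        ((((Jac g).updateRow i0 (Pi.single j 1)).updateRow i (Pi.single l 1))).det := by
    intro j
    rw [deriv_det, ← Finset.add_sum_erase _ _ (Finset.mem_univ i0)]
    have h2 : (((Jac g).updateRow i0 (Pi.single j 1)).updateRow i0
        (fun l => pderiv j (((Jac g).updateRow i0 (Pi.single j 1)) i0 l))).det = 0 := by
      apply Matrix.det_eq_zero_of_row_eq_zero i0
      intro l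
      rw [Matrix.updateRow_self, Matrix.updateRow_self, Pi.single_apply]
      split_ifs
      · exact Derivation.map_one_eq_zero _
      · exact map_zero _
    rw [h2, zero_add]
    apply Finset.sum_congr rfl
    intro i hi
    rw [det_updateRow_eq_sum]
    apply Finset.sum_congr rfl
    intro l _
    rw [Matrix.updateRow_ne (Finset.ne_of_mem_erase hi), Jac_apply]
  rw [Finset.sum_congr rfl (fun j _ => h1 j), Finset.sum_comm]
  apply Finset.sum_eq_zero
  intro i hi
  have hi' : i0 ≠ i := (Finset.ne_of_mem_erase hi).symm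
  rw [← Finset.sum_product' Finset.univ Finset.univ]
  refine Finset.sum_involution (fun x _ => (x.2, x.1)) ?_ ?_ ?_ ?_
  · rintro ⟨a, b⟩ _
    rw [pderiv_pderiv_comm b a, ← mul_add, det_update_swap _ hi', mul_zero]
  · rintro ⟨a, b⟩ _ h1 h2
    apply h1
    have h3 : a = b := (Prod.ext_iff.1 h2).2
    subst h3
    rw [det_update_same _ hi', mul_zero]
  · intros
    exact Finset.mem_univ _
  · intros
    rfl

end Fuj
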