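import Pool.Agent.Lib.MP_0b721b_ag.Fuj.CartierId

/-! The maps sigma_q: q^(-1)-linear endomorphisms of k[x] which preserve an ideal I and send 1 to
an element independent of q. -/

open MvPolynomial

namespace Fuj

variable {σ : Type*} [Fintype σ] [DecidableEq σ] {k : Type*} [CommRing k]

lemma ext_one (f : MvPolynomial σ k) : ext 1 f = f := by
  apply MvPolynomial.ext
  intro β
  rw [coeff_ext 1 one_pos]
  congr 1
  ext i
  simp

lemma map_Jac_det {l : Type*} [CommRing l] (φ : k →+* l) (g : σ → MvPolynomial σ k) :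
    map φ (Jac g).det = (Jac (fun i => map φ (g i))).det := by
  rw [RingHom.map_det]
  congr 1
  ext1 i j
  rw [RingHom.mapMatrix_apply, Matrix.map_apply, Jac_apply, Jac_apply, pderiv_map]

/-- The Cartier identity for q = p^e. -/
theorem cartier_pow (p e : ℕ) [hp : Fact p.Prime] [CharP k p] (g : σ → MvPolynomial σ k) :
    ext (p ^ e) ((∏ i, g i ^ (p ^ e - 1)) * (Jac g).det)
      = map (iterateFrobenius k p e) (Jac g).det := by
  have hp0 : 0 < p := hp.out.pos
  induction e generalizing g with
  | zero =>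
    have h : (iterateFrobenius k p 0) = RingHom.id k := by
      ext x
      rw [iterateFrobenius_def, pow_zero, pow_one, RingHom.id_apply]
    rw [pow_zero, ext_one, Nat.sub_self, h, MvPolynomial.map_id]
    simp
  | succ e ih =>
    have hpe : 0 < p ^ e := pow_pos hp0 e
    have h1 : p ^ (e + 1) - 1 = (p ^ e - 1) * p + (p - 1) := by
      rw [pow_succ, Nat.sub_mul, one_mul]
      have : p ≤ p ^ e * p := Nat.le_mul_of_pos_left p hpe
      omega
    rw [pow_succ, ← ext_ext _ _ hpe hp0, ← pow_succ, h1]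
    have h2 : (∏ i, g i ^ ((p ^ e - 1) * p + (p - 1))) * (Jac g).det
        = (∏ i, g i ^ (p ^ e - 1)) ^ p * ((∏ i, g i ^ (p - 1)) * (Jac g).det) := by
      rw [← mul_assoc, ← Finset.prod_pow, ← Finset.prod_mul_distrib]
      congr 1
      apply Finset.prod_congr rfl
      intro i _
      rw [pow_add, pow_mul]
    have h3 : (iterateFrobenius k p (e + 1)) = (iterateFrobenius k p e).comp (frobenius k p) := by
      ext x
      rw [RingHom.comp_apply, iterateFrobenius_def, iterateFrobenius_def, frobenius_def, ← pow_mul,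
        pow_succ, mul_comm]
    rw [h2, ext_pow_mul, cartier, map_Jac_det, map_prod, h3, ← MvPolynomial.map_map,
      map_Jac_det (frobenius k p), ← ih]
    congr 2
    apply Finset.prod_congr rfl
    intro i _
    rw [map_pow]

section fin

variable (q : ℕ)

/-- Extraction is linear over q-th powers if x^q = x on the coefficients. -/
lemma ext_powq_mul (p e : ℕ) [hp : Fact p.Prime] [CharP k p] (hq : ∀ x : k, x ^ p ^ e = x)
    (a r : MvPolynomial σ k) : ext (p ^ e) (a ^ p ^ e * r) = a * ext (p ^ e) r := by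
  have hp0 : 0 < p := hp.out.pos
  have key : ∀ e : ℕ, ∀ a r : MvPolynomial σ k,
      ext (p ^ e) (a ^ p ^ e * r) = map (iterateFrobenius k p e) a * ext (p ^ e) r := by
    intro e
    induction e with
    | zero =>
      intro a r
      have h : (iterateFrobenius k p 0) = RingHom.id k := by
        ext x
        rw [iterateFrobenius_def, pow_zero, pow_one, RingHom.id_apply]
      rw [pow_zero, pow_one, ext_one, ext_one, h, MvPolynomial.map_id]
    | succ e ih =>
      intro a r
      have hpe : 0 < p ^ e := pow_pos hp0 e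
      have h3 : (iterateFrobenius k p (e + 1))
          = (iterateFrobenius k p e).comp (frobenius k p) := by
        ext x
        rw [RingHom.comp_apply, iterateFrobenius_def, iterateFrobenius_def, frobenius_def,
          ← pow_mul, pow_succ, mul_comm]
      rw [pow_succ, ← ext_ext _ _ hpe hp0, ← ext_ext _ _ hpe hp0, pow_mul, ext_pow_mul, map_pow,
        ih, h3, ← MvPolynomial.map_map]
  have h : (iterateFrobenius k p e) = RingHom.id k := by
    ext x
    rw [iterateFrobenius_def, hq, RingHom.id_apply]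
  rw [key, h, MvPolynomial.map_id]

/-- The map sigma_q. -/
noncomputable def sig (g : σ → MvPolynomial σ k) (c : MvPolynomial σ k) :
    MvPolynomial σ k →ₗ[k] MvPolynomial σ k :=
  (LinearMap.mulLeft k c) ∘ₗ (ext q) ∘ₗ (LinearMap.mulLeft k ((∏ i, g i ^ (q - 1)) * (Jac g).det))

lemma sig_apply (g : σ → MvPolynomial σ k) (c r : MvPolynomial σ k) :
    sig q g c r = c * ext q ((∏ i, g i ^ (q - 1)) * (Jac g).det * r) := rfl

variable {q}

theorem sig_pow_mul (p e : ℕ) (hpe : q = p ^ e) [hp : Fact p.Prime] [CharP k p]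
    (hq : ∀ x : k, x ^ q = x) (g : σ → MvPolynomial σ k) (c a r : MvPolynomial σ k) :
    sig q g c (a ^ q * r) = a * sig q g c r := by
  subst hpe
  rw [sig_apply, sig_apply, mul_left_comm, ext_powq_mul p e hq, mul_left_comm]

theorem sig_one (p e : ℕ) (hpe : q = p ^ e) [hp : Fact p.Prime] [CharP k p]
    (hq : ∀ x : k, x ^ q = x) (g : σ → MvPolynomial σ k) (c : MvPolynomial σ k) :
    sig q g c 1 = c * (Jac g).det := by
  subst hpe
  have h : (iterateFrobenius k p e) = RingHom.id k := by
    ext x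
    rw [iterateFrobenius_def, hq, RingHom.id_apply]
  rw [sig_apply, mul_one, cartier_pow, h, MvPolynomial.map_id]

/-- sigma_q preserves the ideal I. -/
theorem sig_mem (p e : ℕ) (hpe : q = p ^ e) [hp : Fact p.Prime] [CharP k p]
    (hq : ∀ x : k, x ^ q = x) (g : σ → MvPolynomial σ k) (c : MvPolynomial σ k)
    (I : Ideal (MvPolynomial σ k)) (U : Finset σ) (hU : ∀ i ∈ U, g i ∈ I)
    (hc : ∀ a ∈ I, c * a ∈ Ideal.span (g '' (U : Set σ))) (a : MvPolynomial σ k) (ha : a ∈ I) :
    sig q g c a ∈ I := by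
  have hq0 : 0 < q := by
    rw [hpe]; exact pow_pos hp.out.pos e
  have h1 : sig q g c a = ext q (c ^ q * ((∏ i, g i ^ (q - 1)) * (Jac g).det * a)) := by
    subst hpe
    rw [ext_powq_mul p e hq, sig_apply]
  have h2 : c ^ q * ((∏ i, g i ^ (q - 1)) * (Jac g).det * a)
      = (c ^ (q - 1) * (Jac g).det * (∏ i, g i ^ (q - 1))) * (c * a) := by
    conv_lhs => rw [← Nat.sub_add_cancel hq0, pow_succ]
    rw [Nat.sub_add_cancel hq0]
    ring
  rw [h1, h2]
  have key : ∀ b ∈ Ideal.span (g '' (U : Set σ)), ∀ s : MvPolynomial σ k,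
      ext q ((s * (∏ i, g i ^ (q - 1))) * b) ∈ I := by
    intro b hb
    induction hb using Submodule.span_induction with
    | mem x hx =>
      intro s
      obtain ⟨i, hi, rfl⟩ := hx
      have h4 : (s * (∏ i, g i ^ (q - 1))) * g i
          = g i ^ q * (s * ∏ j ∈ Finset.univ.erase i, g j ^ (q - 1)) := by
        rw [← Finset.mul_prod_erase _ _ (Finset.mem_univ i)]
        have h5 : g i ^ q = g i ^ (q - 1) * g i := by
          rw [← pow_succ, Nat.sub_add_cancel hq0]
        rw [h5]
        ring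
      rw [h4]
      subst hpe
      rw [ext_powq_mul p e hq]
      exact Ideal.mul_mem_right _ _ (hU i hi)
    | zero => intro s; rw [mul_zero, map_zero]; exact I.zero_mem
    | add x y _ _ hx hy => intro s; rw [mul_add, map_add]; exact I.add_mem (hx s) (hy s)
    | smul r x _ hx =>
      intro s
      have h6 : (s * (∏ i, g i ^ (q - 1))) * (r • x) = ((s * r) * (∏ i, g i ^ (q - 1))) * x := by
        rw [smul_eq_mul]; ring
      rw [h6]
      exact hx _
  exact key _ (hc a ha) _

/-- Degrees: ext. -/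
lemma ext_isHomogeneous (q : ℕ) (hq0 : 0 < q) (f : MvPolynomial σ k) (m : ℕ)
    (hf : f.IsHomogeneous (q * m + Fintype.card σ * (q - 1))) : (ext q f).IsHomogeneous m := by
  intro β hβ
  rw [coeff_ext q hq0] at hβ
  have h := hf hβ
  rw [Finsupp.weight_apply, Finsupp.sum_fintype _ _ (by intro i; simp)] at h ⊢
  simp only [exE_apply, Pi.one_apply, smul_eq_mul, mul_one] at h ⊢
  rw [Finset.sum_add_distrib, Finset.sum_const, Finset.card_univ, smul_eq_mul,
    ← Finset.mul_sum] at h
  exact Nat.eq_of_mul_eq_mul_left hq0 (by omega)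

lemma Jac_det_isHomogeneous (g : σ → MvPolynomial σ k) (d : σ → ℕ) (hd : ∀ i, 0 < d i)
    (hg : ∀ i, (g i).IsHomogeneous (d i)) :
    (Jac g).det.IsHomogeneous (∑ i, d i - Fintype.card σ) := by
  rw [det_transpose_apply]
  apply IsHomogeneous.sum
  intro s _
  have h1 : (∏ i, Jac g i (s i)).IsHomogeneous (∑ i, (d i - 1)) := by
    apply IsHomogeneous.prod
    intro i _
    rw [Jac_apply]
    exact (hg i).pderiv
  have h2 : ∑ i, (d i - 1) = ∑ i, d i - Fintype.card σ := by
    have h3 : ∑ i, d i = ∑ i, (d i - 1) + Fintype.card σ := by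
      have h4 : ∑ i : σ, 1 = Fintype.card σ := by simp
      rw [← h4, ← Finset.sum_add_distrib]
      apply Finset.sum_congr rfl
      intro i _
      have := hd i
      omega
    omega
  rw [← h2]
  have h5 : (((Equiv.Perm.sign s : ℤ) : MvPolynomial σ k)).IsHomogeneous 0 := by
    have : (((Equiv.Perm.sign s : ℤ) : MvPolynomial σ k)) = C (((Equiv.Perm.sign s : ℤ) : k)) := by
      simp
    rw [this]
    exact isHomogeneous_C _ _
  have h6 := h5.mul h1
  rwa [zero_add] at h6

/-- sigma_q shifts degrees: q m -> m + delta. -/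
theorem sig_isHomogeneous (q : ℕ) (hq0 : 0 < q) (g : σ → MvPolynomial σ k) (d : σ → ℕ)
    (hd : ∀ i, 0 < d i) (hg : ∀ i, (g i).IsHomogeneous (d i)) (c : MvPolynomial σ k) (dc : ℕ)
    (hc : c.IsHomogeneous dc) (m : ℕ) (r : MvPolynomial σ k) (hr : r.IsHomogeneous (q * m)) :
    (sig q g c r).IsHomogeneous (dc + (m + (∑ i, d i - Fintype.card σ))) := by
  rw [sig_apply]
  apply hc.mul
  apply ext_isHomogeneous q hq0
  have h1 : (∏ i, g i ^ (q - 1)).IsHomogeneous (∑ i, d i * (q - 1)) := by
    apply IsHomogeneous.prod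
    intro i _
    exact (hg i).pow _
  have h2 := (h1.mul (Jac_det_isHomogeneous g d hd hg)).mul hr
  convert h2 using 1
  have h3 : Fintype.card σ ≤ ∑ i, d i := by
    have h4 : ∑ i : σ, 1 = Fintype.card σ := by simp
    rw [← h4]
    exact Finset.sum_le_sum (fun i _ => hd i)
  rw [← Finset.sum_mul]
  obtain ⟨a, ha⟩ := Nat.exists_eq_add_of_le h3
  obtain ⟨b, rfl⟩ : ∃ b, q = b + 1 := ⟨q - 1, by omega⟩
  rw [ha, Nat.add_sub_cancel_left, Nat.add_sub_cancel]
  ring

end fin

end Fuj
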